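import Pool.Agent.Helper80.LE.Form
import Pool.Agent.Helper80.TE.Main

/-!
# A linear order and an equivalence relation: universality
-/

set_option autoImplicit false

namespace Pool.Agent.Helper80.LE

open Pool.Agent.Helper29.Prefix Pool.Agent.Helper29.C2 Pool.Agent.Helper80.NF Pool.Agent.Helper20.Spectra
  Pool.Agent.Helper20.PV Pool.Agent.Helper74.W2O

/-- a linear order and an equivalence relation -/
def OrdEq (A : Type) (ord : Fin 2 → A → A → Prop) : Prop := Lin (ord 0) ∧ Equivalence (ord 1)

theorem univ_ordEq : Univ (C2Spec OrdEq) := by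
  refine univ_of_tiles fun q W => ?_
  obtain ⟨Φ, hΦ⟩ := le_sentence W
  refine ⟨Polynomial.C 4 * Polynomial.X ^ 3, szLE W, ⟨LCol q, Fin 4, inferInstance, inferInstance, Φ, hΦ⟩,
    fun N hN => ?_⟩
  rw [le_sizes W hN]
  simp

end Pool.Agent.Helper80.LE
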