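import Pool.Agent.Helper80.LE.Complete
import Pool.Agent.Helper80.TE.Form

/-!
# A linear order and an equivalence relation: the sentence
-/

set_option autoImplicit false

namespace Pool.Agent.Helper80.LE

open Pool.Agent.Helper29.Prefix Pool.Agent.Helper29.C2 Pool.Agent.Helper80.NF Pool.Agent.Helper80.TE
  Pool.Agent.Helper74.W2O

instance {q : ℕ} : Finite (LCol q) := by
  refine Finite.of_injective (β := Col q × (Bool × Bool) × (Bool × Bool))
    (fun c => (c.c, (c.hf, c.lf), (c.f1, c.e1))) ?_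
  rintro ⟨a1, a2, a3, a4, a5⟩ ⟨b1, b2, b3, b4, b5⟩ h
  simp only [Prod.mk.injEq] at h
  obtain ⟨rfl, ⟨rfl, rfl⟩, rfl, rfl⟩ := h
  rfl

/-- conditions on pairs; binary relations: `0` successor, `1` next element of the cell, `2` other role, `3` corner -/
def uLE {q : ℕ} (W : Wang (Fin q)) (c c' : LCol q) (f : Fct (Fin 2) (Fin 4)) : Prop :=
  One W c.c ∧ (f.o 1 → Same c.c c'.c) ∧ (f.b 2 → f.o 1 ∧ c.c.kind = c'.c.kind ∧ f.b' 2) ∧
  (f.b 3 → f.o 1 ∧ Cn c.c 1 ∧ Cn c'.c 2) ∧ (f.b 0 → f.o 0 ∧ c.e1 = false ∧ c'.f1 = false) ∧ FL c ∧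
  (f.b 0 → Sc W c c') ∧
  (f.b 1 → f.o 0 ∧ f.o 1 ∧ c.c.role = c'.c.role ∧ c.lf = false ∧ c'.hf = false ∧ (So c ∨ Ta c) ∧ (So c' ∨ Ta c'))

/-- indices of the conditions `exactly one` -/
inductive Ix
  | head (r : Fin 4)
  | f (r : Fin 4)
  | org
  | q1
  | q2
  | s1
  | s2
  | oe
  | v1
  | v2
  | hd

instance : Finite Ix := by
  refine Finite.of_surjective (α := (Fin 4 ⊕ Fin 4) ⊕ Fin 9) (fun x => match x with
    | Sum.inl (Sum.inl r) => Ix.head r
    | Sum.inl (Sum.inr r) => Ix.f r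
    | Sum.inr i => (![Ix.org, Ix.q1, Ix.q2, Ix.s1, Ix.s2, Ix.oe, Ix.v1, Ix.v2, Ix.hd] : Fin 9 → Ix) i) ?_
  intro i
  rcases i with r | r | _ | _ | _ | _ | _ | _ | _ | _ | _
  · exact ⟨Sum.inl (Sum.inl r), rfl⟩
  · exact ⟨Sum.inl (Sum.inr r), rfl⟩
  · exact ⟨Sum.inr 0, rfl⟩
  · exact ⟨Sum.inr 1, rfl⟩
  · exact ⟨Sum.inr 2, rfl⟩
  · exact ⟨Sum.inr 3, rfl⟩
  · exact ⟨Sum.inr 4, rfl⟩
  · exact ⟨Sum.inr 5, rfl⟩
  · exact ⟨Sum.inr 6, rfl⟩
  · exact ⟨Sum.inr 7, rfl⟩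
  · exact ⟨Sum.inr 8, rfl⟩

/-- guards -/
def gLE {q : ℕ} : Ix → LCol q → Prop
  | Ix.head _, _ => True
  | Ix.f r, c => c.c.kind ≠ 0 ∧ r ≠ c.c.role
  | Ix.org, _ => True
  | Ix.q1, c => Cn c.c 1
  | Ix.q2, c => Cn c.c 2
  | Ix.s1, c => c.e1 = false
  | Ix.s2, c => c.f1 = false
  | Ix.oe, _ => True
  | Ix.v1, c => (So c ∨ Ta c) ∧ c.lf = false
  | Ix.v2, c => (So c ∨ Ta c) ∧ c.hf = false
  | Ix.hd, c => Ou c.c ∨ In c.c

/-- witnesses -/
def wLE {q : ℕ} : Ix → LCol q → LCol q → Fct (Fin 2) (Fin 4) → Prop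
  | Ix.head r, _, c', f => f.o 1 ∧ c'.c.role = r ∧ c'.c.kind = 0
  | Ix.f r, _, c', f => f.b 2 ∧ c'.c.role = r
  | Ix.org, _, c', _ => c'.c.role = 0 ∧ c'.c.kind = 0 ∧ c'.c.fl = true ∧ c'.c.fd = true
  | Ix.q1, _, _, f => f.b 3
  | Ix.q2, _, _, f => f.b' 3
  | Ix.s1, _, _, f => f.b 0
  | Ix.s2, _, _, f => f.b' 0
  | Ix.oe, _, c', _ => c'.e1 = true
  | Ix.v1, _, _, f => f.b 1
  | Ix.v2, _, _, f => f.b' 1
  | Ix.hd, c, c', f => f.o 1 ∧ c'.c.role = c.c.role ∧ (So c' ∨ Ta c') ∧ c'.hf = true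

lemma leAx_iff {q : ℕ} {W : Wang (Fin q)} {A U : Type} [Nonempty A] (M : Str (Fin 2) U (Fin 4) A) (c : A → LCol q)
    (h0 : Lin (M.ord 0)) (h1 : Equivalence (M.ord 1)) :
    LEAx W (M.ord 0) (M.ord 1) (M.bin 0) (M.bin 1) (M.bin 2) (M.bin 3) c ↔
      (∀ x y, uLE W (c x) (c y) (fact M x y)) ∧ ∀ i x, gLE i (c x) → ∃! y, wLE i (c x) (c y) (fact M x y) := by
  constructor
  · intro H
    refine ⟨fun x y => ⟨H.one x, H.same x y, H.fF x y, H.qQ x y, H.sl x y, H.fl x, H.sc x y, H.vv x y⟩, ?_⟩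
    rintro (r | r | _ | _ | _ | _ | _ | _ | _ | _ | _) x hg
    · exact H.head x r
    · exact H.F1 x hg.1 r hg.2
    · exact H.org
    · exact H.Q1 x hg
    · exact H.Q2 x hg
    · exact H.s1 x hg
    · exact H.s2 x hg
    · exact H.oe
    · exact H.v1 x hg.1 hg.2
    · exact H.v2 x hg.1 hg.2
    · exact H.hd x hg
  · rintro ⟨hu, hw⟩
    obtain ⟨a⟩ := ‹Nonempty A›
    exact
    { lin := h0
      e1 := h1
      one := fun x => (hu x x).1
      same := fun x y => (hu x y).2.1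
      head := fun x r => hw (Ix.head r) x trivial
      fF := fun x y => (hu x y).2.2.1
      F1 := fun x hk r hr => hw (Ix.f r) x ⟨hk, hr⟩
      org := hw Ix.org a trivial
      qQ := fun x y => (hu x y).2.2.2.1
      Q1 := fun x h => hw Ix.q1 x h
      Q2 := fun x h => hw Ix.q2 x h
      sl := fun x y => (hu x y).2.2.2.2.1
      s1 := fun x h => hw Ix.s1 x h
      s2 := fun x h => hw Ix.s2 x h
      oe := hw Ix.oe a trivial
      fl := fun x => (hu x x).2.2.2.2.2.1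
      sc := fun x y => (hu x y).2.2.2.2.2.2.1
      vv := fun x y => (hu x y).2.2.2.2.2.2.2
      v1 := fun x h h' => hw Ix.v1 x ⟨h, h'⟩
      v2 := fun x h h' => hw Ix.v2 x ⟨h, h'⟩
      hd := fun x h => hw Ix.hd x h }

/-- the sentence -/
theorem le_formula {q : ℕ} (W : Wang (Fin q)) : ∃ Φ : Fm (Fin 2) (LCol q) (Fin 4),
    ∀ (A : Type) [Nonempty A] (M : Str (Fin 2) (LCol q) (Fin 4) A), Lin (M.ord 0) → Equivalence (M.ord 1) →
      ((∀ e, Sat M Φ e) ↔ ∃ c : A → LCol q, (∀ x P, M.un P x ↔ P = c x) ∧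
        LEAx W (M.ord 0) (M.ord 1) (M.bin 0) (M.bin 1) (M.bin 2) (M.bin 3) c) := by
  obtain ⟨Φ, hΦ⟩ := nf_unique (uLE W) (gLE (q := q)) wLE
  refine ⟨Φ, fun A _ M h0 h1 => ?_⟩
  rw [hΦ]
  exact exists_congr fun c => and_congr_right fun _ => (leAx_iff M c h0 h1).symm

/-- transport of a structure -/
def trS {Λ U V A B : Type} (e : B → A) (M : Str Λ U V A) : Str Λ U V B where
  ord := fun l x y => M.ord l (e x) (e y)
  un := fun P x => M.un P (e x)
  bin := fun E x y => M.bin E (e x) (e y)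

lemma sat_trS {Λ U V A B : Type} (e : B ≃ A) (M : Str Λ U V A) (φ : Fm Λ U V) : ∀ w : Bool → B,
    Sat (trS e M) φ w ↔ Sat M φ (fun b => e (w b)) := by
  induction φ with
  | eq => intro w; exact e.injective.eq_iff.symm
  | ord l v => intro w; exact Iff.rfl
  | un P v => intro w; exact Iff.rfl
  | bin E v w => intro w; exact Iff.rfl
  | neg φ ih => intro w; exact not_congr (ih w)
  | and φ ψ ih1 ih2 => intro w; exact and_congr (ih1 w) (ih2 w)
  | ex k v φ ih =>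
    intro w
    show k ≤ Nat.card _ ↔ k ≤ Nat.card _
    have : Nat.card {a : B // Sat (trS e M) φ (Function.update w v a)} =
        Nat.card {a : A // Sat M φ (Function.update (fun b => e (w b)) v a)} := by
      refine Nat.card_congr (e.subtypeEquiv fun a => ?_)
      rw [ih]
      have : (fun b => e (Function.update w v a b)) = Function.update (fun b => e (w b)) v (e a) := by
        funext b
        by_cases hb : b = v
        · subst hb; simp
        · simp [hb]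
      rw [this]
    rw [this]

/-- there is a two-variable sentence whose models with a linear order and an equivalence relation have the
sizes `szLE W` -/
theorem le_sentence {q : ℕ} (W : Wang (Fin q)) : ∃ Φ : Fm (Fin 2) (LCol q) (Fin 4),
    szLE W = {n : ℕ | 1 ≤ n ∧ ∃ M : Str (Fin 2) (LCol q) (Fin 4) (Fin n),
      (Lin (M.ord 0) ∧ Equivalence (M.ord 1)) ∧ ∀ e, Sat M Φ e} := by
  obtain ⟨Φ, hΦ⟩ := le_formula W
  refine ⟨Φ, Set.ext fun n => ?_⟩
  constructor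
  · rintro ⟨hn, M, _, lt, E, S, V, F, Q, c, hcard, H⟩
    refine ⟨hn, ?_⟩
    haveI : Nonempty M := by
      rw [← Fintype.card_pos_iff]
      omega
    have e : Fin n ≃ M := (Fintype.equivFinOfCardEq hcard).symm
    let M0 : Str (Fin 2) (LCol q) (Fin 4) M :=
      ⟨fun i x y => if i = 0 then lt x y else E x y, fun P x => P = c x,
        fun i x y => if i = 0 then S x y else if i = 1 then V x y else if i = 2 then F x y else Q x y⟩
    refine ⟨trS e M0, ⟨⟨fun x => H.lin.irr _, fun x y z => H.lin.tr _ _ _, fun x y hxy => H.lin.tot _ _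
      (fun h => hxy (e.injective h))⟩, ⟨fun x => H.e1.refl _, fun h => H.e1.symm h, fun h h' => H.e1.trans h h'⟩⟩, ?_⟩
    intro w
    rw [sat_trS]
    exact (hΦ M M0 H.lin H.e1).2 ⟨c, fun x P => Iff.rfl, H⟩ _
  · rintro ⟨hn, M, ⟨h0, h1⟩, hs⟩
    haveI : Nonempty (Fin n) := ⟨⟨0, hn⟩⟩
    obtain ⟨c, -, H⟩ := (hΦ (Fin n) M h0 h1).1 hs
    exact ⟨hn, Fin n, inferInstance, _, _, _, _, _, _, c, Fintype.card_fin n, H⟩

end Pool.Agent.Helper80.LE
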