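import Pool.Agent.Helper80.LE.Cov
import Pool.Agent.Helper80.TE.Complete

/-!
# A linear order and an equivalence relation: the order of the model
-/

set_option autoImplicit false

namespace Pool.Agent.Helper80.LE

open Pool.Agent.Helper80.TE Pool.Agent.Helper74.W2O

/-- `t` is aligned: it is the element number `i` of the source (`σ = 0`) or the target (`σ = 1`) of the horizontal
(`τ = 0`) or vertical (`τ = 1`) edge from the point `(ex, ey)` -/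
def Al {N : ℕ} (t : El N) (τ ex ey i σ : ℕ) : Prop :=
  i ≤ ex + ey ∧
  ((τ = 0 ∧ σ = 0 ∧ t.ro = 0 ∧ t.X = ex ∧ t.Y = ey ∧ ex + 1 < N ∧
    ((i = 0 ∧ t.kd = 0) ∨ (t.kd = 1 ∧ i = t.ix + 1) ∨ (t.kd = 2 ∧ i = ex + 1 + t.ix))) ∨
  (τ = 0 ∧ σ = 1 ∧ t.ro = 1 ∧ t.X = ex + 1 ∧ t.Y = ey ∧
    ((t.kd = 1 ∧ i = t.ix) ∨ (t.kd = 2 ∧ i = ex + 1 + t.ix))) ∨
  (τ = 1 ∧ σ = 0 ∧ t.ro = 2 ∧ t.X = ex ∧ t.Y = ey ∧ ey + 1 < N ∧
    ((i = 0 ∧ t.kd = 0) ∨ (t.kd = 2 ∧ i = t.ix + 1) ∨ (t.kd = 1 ∧ i = ey + 1 + t.ix))) ∨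
  (τ = 1 ∧ σ = 1 ∧ t.ro = 3 ∧ t.X = ex ∧ t.Y = ey + 1 ∧
    ((t.kd = 2 ∧ i = t.ix) ∨ (t.kd = 1 ∧ i = ey + 1 + t.ix))))

/-- the place in the order -/
def key6 {N : ℕ} (t : El N) : ℕ × ℕ × ℕ × ℕ × ℕ × ℕ :=
  if t.ro = 0 ∧ t.X + 1 < N then
    (0, 0, t.X, t.Y, (if t.kd = 2 then t.X + 1 + t.ix else if t.kd = 1 then t.ix + 1 else 0), 0)
  else if t.ro = 1 ∧ t.X ≠ 0 ∧ t.kd ≠ 0 then
    (0, 0, t.X - 1, t.Y, (if t.kd = 2 then t.X + t.ix else t.ix), 1)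
  else if t.ro = 2 ∧ t.Y + 1 < N then
    (0, 1, t.X, t.Y, (if t.kd = 1 then t.Y + 1 + t.ix else if t.kd = 2 then t.ix + 1 else 0), 0)
  else if t.ro = 3 ∧ t.Y ≠ 0 ∧ t.kd ≠ 0 then
    (0, 1, t.X, t.Y - 1, (if t.kd = 1 then t.Y + t.ix else t.ix), 1)
  else (1, t.ro.val, t.X, t.Y, t.kd.val, t.ix)

/-- not aligned -/
def Fr {N : ℕ} (t : El N) : Prop :=
  ¬ (t.ro = 0 ∧ t.X + 1 < N) ∧ ¬ (t.ro = 1 ∧ t.X ≠ 0 ∧ t.kd ≠ 0) ∧ ¬ (t.ro = 2 ∧ t.Y + 1 < N) ∧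
    ¬ (t.ro = 3 ∧ t.Y ≠ 0 ∧ t.kd ≠ 0)

variable {N : ℕ}

lemma key_al {t : El N} {τ ex ey i σ : ℕ} (h : Al t τ ex ey i σ) : key6 t = (0, τ, ex, ey, i, σ) := by
  obtain ⟨h0, h⟩ := h
  unfold key6
  rcases h with ⟨rfl, rfl, h1, h2, h3, h4, h5⟩ | ⟨rfl, rfl, h1, h2, h3, h5⟩ | ⟨rfl, rfl, h1, h2, h3, h4, h5⟩ |
    ⟨rfl, rfl, h1, h2, h3, h5⟩
  · rw [if_pos ⟨h1, by omega⟩, h2, h3]
    rcases h5 with ⟨h5, h6⟩ | ⟨h6, h5⟩ | ⟨h6, h5⟩
    · rw [h6, if_neg (by decide), if_neg (by decide), h5]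
    · rw [h6, if_neg (by decide), if_pos rfl, h5]
    · rw [h6, if_pos rfl, h5]
  · have hk : t.kd ≠ 0 := by
      rcases h5 with ⟨h6, h5⟩ | ⟨h6, h5⟩ <;> rw [h6] <;> decide
    rw [if_neg (fun h => absurd (h1.symm.trans h.1) (by decide)), if_pos ⟨h1, by omega, hk⟩, h2, h3]
    rcases h5 with ⟨h6, h5⟩ | ⟨h6, h5⟩
    · rw [h6, if_neg (by decide), h5, Nat.add_sub_cancel]
    · rw [h6, if_pos rfl, h5, Nat.add_sub_cancel]
  · rw [if_neg (fun h => absurd (h1.symm.trans h.1) (by decide)), if_neg (fun h => absurd (h1.symm.trans h.1) (by decide)), if_pos ⟨h1, by omega⟩, h2, h3]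
    rcases h5 with ⟨h5, h6⟩ | ⟨h6, h5⟩ | ⟨h6, h5⟩
    · rw [h6, if_neg (by decide), if_neg (by decide), h5]
    · rw [h6, if_neg (by decide), if_pos rfl, h5]
    · rw [h6, if_pos rfl, h5]
  · have hk : t.kd ≠ 0 := by
      rcases h5 with ⟨h6, h5⟩ | ⟨h6, h5⟩ <;> rw [h6] <;> decide
    rw [if_neg (fun h => absurd (h1.symm.trans h.1) (by decide)), if_neg (fun h => absurd (h1.symm.trans h.1) (by decide)), if_neg (fun h => absurd (h1.symm.trans h.1) (by decide)),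
      if_pos ⟨h1, by omega, hk⟩, h2, h3]
    rcases h5 with ⟨h6, h5⟩ | ⟨h6, h5⟩
    · rw [h6, if_neg (by decide), h5, Nat.add_sub_cancel]
    · rw [h6, if_pos rfl, h5, Nat.add_sub_cancel]

lemma key_fr {t : El N} (h : Fr t) : key6 t = (1, t.ro.val, t.X, t.Y, t.kd.val, t.ix) := by
  unfold key6
  rw [if_neg h.1, if_neg h.2.1, if_neg h.2.2.1, if_neg h.2.2.2]

lemma view (t : El N) : (∃ τ ex ey i σ, Al t τ ex ey i σ) ∨ Fr t := by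
  by_cases h : Fr t
  · exact Or.inr h
  left
  obtain ⟨v1, v2, v3, v4, v5⟩ := t.val
  unfold Fr at h
  by_cases h1 : t.ro = 0 ∧ t.X + 1 < N
  · rcases kd_cases t with hk | hk | hk
    · exact ⟨0, t.X, t.Y, 0, 0, by omega, Or.inl ⟨rfl, rfl, h1.1, rfl, rfl, h1.2, Or.inl ⟨rfl, hk⟩⟩⟩
    · have := v4 hk
      exact ⟨0, t.X, t.Y, t.ix + 1, 0, by omega, Or.inl ⟨rfl, rfl, h1.1, rfl, rfl, h1.2, Or.inr (Or.inl ⟨hk, rfl⟩)⟩⟩
    · have := v5 hk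
      exact ⟨0, t.X, t.Y, t.X + 1 + t.ix, 0, by omega,
        Or.inl ⟨rfl, rfl, h1.1, rfl, rfl, h1.2, Or.inr (Or.inr ⟨hk, rfl⟩)⟩⟩
  by_cases h2 : t.ro = 1 ∧ t.X ≠ 0 ∧ t.kd ≠ 0
  · rcases kd_cases t with hk | hk | hk
    · exact absurd hk h2.2.2
    · have := v4 hk
      exact ⟨0, t.X - 1, t.Y, t.ix, 1, by omega, Or.inr (Or.inl ⟨rfl, rfl, h2.1, by omega, rfl, Or.inl ⟨hk, rfl⟩⟩)⟩
    · have := v5 hk
      exact ⟨0, t.X - 1, t.Y, t.X - 1 + 1 + t.ix, 1, by omega,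
        Or.inr (Or.inl ⟨rfl, rfl, h2.1, by omega, rfl, Or.inr ⟨hk, rfl⟩⟩)⟩
  by_cases h3 : t.ro = 2 ∧ t.Y + 1 < N
  · rcases kd_cases t with hk | hk | hk
    · exact ⟨1, t.X, t.Y, 0, 0, by omega, Or.inr (Or.inr (Or.inl ⟨rfl, rfl, h3.1, rfl, rfl, h3.2, Or.inl ⟨rfl, hk⟩⟩))⟩
    · have := v4 hk
      exact ⟨1, t.X, t.Y, t.Y + 1 + t.ix, 0, by omega,
        Or.inr (Or.inr (Or.inl ⟨rfl, rfl, h3.1, rfl, rfl, h3.2, Or.inr (Or.inr ⟨hk, rfl⟩)⟩))⟩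
    · have := v5 hk
      exact ⟨1, t.X, t.Y, t.ix + 1, 0, by omega,
        Or.inr (Or.inr (Or.inl ⟨rfl, rfl, h3.1, rfl, rfl, h3.2, Or.inr (Or.inl ⟨hk, rfl⟩)⟩))⟩
  by_cases h4 : t.ro = 3 ∧ t.Y ≠ 0 ∧ t.kd ≠ 0
  · rcases kd_cases t with hk | hk | hk
    · exact absurd hk h4.2.2
    · have := v4 hk
      exact ⟨1, t.X, t.Y - 1, t.Y - 1 + 1 + t.ix, 1, by omega,
        Or.inr (Or.inr (Or.inr ⟨rfl, rfl, h4.1, rfl, by omega, Or.inr ⟨hk, rfl⟩⟩))⟩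
    · have := v5 hk
      exact ⟨1, t.X, t.Y - 1, t.ix, 1, by omega,
        Or.inr (Or.inr (Or.inr ⟨rfl, rfl, h4.1, rfl, by omega, Or.inl ⟨hk, rfl⟩⟩))⟩
  exact absurd ⟨h1, h2, h3, h4⟩ h

/-- all places exist -/
lemma ex_al (τ ex ey i σ : ℕ) (hi : i ≤ ex + ey) (h : (τ = 0 ∧ ex + 1 < N ∧ ey < N) ∨ (τ = 1 ∧ ex < N ∧ ey + 1 < N))
    (hσ : σ = 0 ∨ σ = 1) : ∃ t : El N, Al t τ ex ey i σ := by
  rcases h with ⟨rfl, h1, h2⟩ | ⟨rfl, h1, h2⟩ <;> rcases hσ with rfl | rfl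
  · rcases Nat.eq_zero_or_pos i with h0 | h0
    · obtain ⟨t, t1, t2, t3, t4, t5⟩ := El.mk (N := N) ex ey 0 0 0 (by omega) (by omega) (fun _ => rfl)
        (fun h => absurd h (by decide)) (fun h => absurd h (by decide))
      exact ⟨t, hi, Or.inl ⟨rfl, rfl, t3, t1, t2, h1, Or.inl ⟨h0, t4⟩⟩⟩
    · by_cases h3 : i ≤ ex
      · obtain ⟨t, t1, t2, t3, t4, t5⟩ := El.mk (N := N) ex ey 0 1 (i - 1) (by omega) (by omega)
          (fun h => absurd h (by decide)) (fun _ => by omega) (fun h => absurd h (by decide))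
        exact ⟨t, hi, Or.inl ⟨rfl, rfl, t3, t1, t2, h1, Or.inr (Or.inl ⟨t4, by omega⟩)⟩⟩
      · obtain ⟨t, t1, t2, t3, t4, t5⟩ := El.mk (N := N) ex ey 0 2 (i - ex - 1) (by omega) (by omega)
          (fun h => absurd h (by decide)) (fun h => absurd h (by decide)) (fun _ => by omega)
        exact ⟨t, hi, Or.inl ⟨rfl, rfl, t3, t1, t2, h1, Or.inr (Or.inr ⟨t4, by omega⟩)⟩⟩
  · by_cases h3 : i ≤ ex
    · obtain ⟨t, t1, t2, t3, t4, t5⟩ := El.mk (N := N) (ex + 1) ey 1 1 i (by omega) (by omega)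
          (fun h => absurd h (by decide)) (fun _ => by omega) (fun h => absurd h (by decide))
      exact ⟨t, hi, Or.inr (Or.inl ⟨rfl, rfl, t3, t1, t2, Or.inl ⟨t4, by omega⟩⟩)⟩
    · obtain ⟨t, t1, t2, t3, t4, t5⟩ := El.mk (N := N) (ex + 1) ey 1 2 (i - ex - 1) (by omega) (by omega)
          (fun h => absurd h (by decide)) (fun h => absurd h (by decide)) (fun _ => by omega)
      exact ⟨t, hi, Or.inr (Or.inl ⟨rfl, rfl, t3, t1, t2, Or.inr ⟨t4, by omega⟩⟩)⟩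
  · rcases Nat.eq_zero_or_pos i with h0 | h0
    · obtain ⟨t, t1, t2, t3, t4, t5⟩ := El.mk (N := N) ex ey 2 0 0 (by omega) (by omega) (fun _ => rfl)
        (fun h => absurd h (by decide)) (fun h => absurd h (by decide))
      exact ⟨t, hi, Or.inr (Or.inr (Or.inl ⟨rfl, rfl, t3, t1, t2, h2, Or.inl ⟨h0, t4⟩⟩))⟩
    · by_cases h3 : i ≤ ey
      · obtain ⟨t, t1, t2, t3, t4, t5⟩ := El.mk (N := N) ex ey 2 2 (i - 1) (by omega) (by omega)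
          (fun h => absurd h (by decide)) (fun h => absurd h (by decide)) (fun _ => by omega)
        exact ⟨t, hi, Or.inr (Or.inr (Or.inl ⟨rfl, rfl, t3, t1, t2, h2, Or.inr (Or.inl ⟨t4, by omega⟩)⟩))⟩
      · obtain ⟨t, t1, t2, t3, t4, t5⟩ := El.mk (N := N) ex ey 2 1 (i - ey - 1) (by omega) (by omega)
          (fun h => absurd h (by decide)) (fun _ => by omega) (fun h => absurd h (by decide))
        exact ⟨t, hi, Or.inr (Or.inr (Or.inl ⟨rfl, rfl, t3, t1, t2, h2, Or.inr (Or.inr ⟨t4, by omega⟩)⟩))⟩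
  · by_cases h3 : i ≤ ey
    · obtain ⟨t, t1, t2, t3, t4, t5⟩ := El.mk (N := N) ex (ey + 1) 3 2 i (by omega) (by omega)
          (fun h => absurd h (by decide)) (fun h => absurd h (by decide)) (fun _ => by omega)
      exact ⟨t, hi, Or.inr (Or.inr (Or.inr ⟨rfl, rfl, t3, t1, t2, Or.inl ⟨t4, by omega⟩⟩))⟩
    · obtain ⟨t, t1, t2, t3, t4, t5⟩ := El.mk (N := N) ex (ey + 1) 3 1 (i - ey - 1) (by omega) (by omega)
          (fun h => absurd h (by decide)) (fun _ => by omega) (fun h => absurd h (by decide))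
      exact ⟨t, hi, Or.inr (Or.inr (Or.inr ⟨rfl, rfl, t3, t1, t2, Or.inr ⟨t4, by omega⟩⟩))⟩

lemma al_inj {t t' : El N} {τ ex ey i σ : ℕ} (h : Al t τ ex ey i σ) (h' : Al t' τ ex ey i σ) : t = t' := by
  obtain ⟨v1, v2, v3, v4, v5⟩ := t.val
  obtain ⟨w1, w2, w3, w4, w5⟩ := t'.val
  obtain ⟨-, h⟩ := h
  obtain ⟨-, h'⟩ := h'
  rcases h with ⟨rfl, rfl, h1, h2, h3, h4, h5⟩ | ⟨rfl, rfl, h1, h2, h3, h5⟩ | ⟨rfl, rfl, h1, h2, h3, h4, h5⟩ |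
    ⟨rfl, rfl, h1, h2, h3, h5⟩ <;>
  rcases h' with ⟨a1, a2, k1, k2, k3, k4, k5⟩ | ⟨a1, a2, k1, k2, k3, k5⟩ | ⟨a1, a2, k1, k2, k3, k4, k5⟩ |
    ⟨a1, a2, k1, k2, k3, k5⟩ <;> try omega
  · rcases h5 with ⟨h6, h7⟩ | ⟨h7, h6⟩ | ⟨h7, h6⟩ <;> rcases k5 with ⟨k6, k7⟩ | ⟨k7, k6⟩ | ⟨k7, k6⟩
    · exact El.ext' (by omega) (by omega) (by rw [h1, k1]) (by rw [h7, k7]) (by rw [v3 h7, w3 k7])
    · omega
    · omega
    · omega
    · exact El.ext' (by omega) (by omega) (by rw [h1, k1]) (by rw [h7, k7]) (by omega)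
    · have := v4 h7; omega
    · omega
    · have := w4 k7; omega
    · exact El.ext' (by omega) (by omega) (by rw [h1, k1]) (by rw [h7, k7]) (by omega)
  · rcases h5 with ⟨h7, h6⟩ | ⟨h7, h6⟩ <;> rcases k5 with ⟨k7, k6⟩ | ⟨k7, k6⟩
    · exact El.ext' (by omega) (by omega) (by rw [h1, k1]) (by rw [h7, k7]) (by omega)
    · have := v4 h7; omega
    · have := w4 k7; omega
    · exact El.ext' (by omega) (by omega) (by rw [h1, k1]) (by rw [h7, k7]) (by omega)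
  · rcases h5 with ⟨h6, h7⟩ | ⟨h7, h6⟩ | ⟨h7, h6⟩ <;> rcases k5 with ⟨k6, k7⟩ | ⟨k7, k6⟩ | ⟨k7, k6⟩
    · exact El.ext' (by omega) (by omega) (by rw [h1, k1]) (by rw [h7, k7]) (by rw [v3 h7, w3 k7])
    · omega
    · omega
    · omega
    · exact El.ext' (by omega) (by omega) (by rw [h1, k1]) (by rw [h7, k7]) (by omega)
    · have := v5 h7; omega
    · omega
    · have := w5 k7; omega
    · exact El.ext' (by omega) (by omega) (by rw [h1, k1]) (by rw [h7, k7]) (by omega)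
  · rcases h5 with ⟨h7, h6⟩ | ⟨h7, h6⟩ <;> rcases k5 with ⟨k7, k6⟩ | ⟨k7, k6⟩
    · exact El.ext' (by omega) (by omega) (by rw [h1, k1]) (by rw [h7, k7]) (by omega)
    · have := v5 h7; omega
    · have := w5 k7; omega
    · exact El.ext' (by omega) (by omega) (by rw [h1, k1]) (by rw [h7, k7]) (by omega)

lemma key_inj {t t' : El N} (h : key6 t = key6 t') : t = t' := by
  rcases view t with ⟨τ, ex, ey, i, σ, ha⟩ | ha <;> rcases view t' with ⟨τ', ex', ey', i', σ', hb⟩ | hb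
  · rw [key_al ha, key_al hb] at h
    simp only [Prod.mk.injEq, true_and] at h
    obtain ⟨rfl, rfl, rfl, rfl, rfl⟩ := h
    exact al_inj ha hb
  · rw [key_al ha, key_fr hb] at h
    simp at h
  · rw [key_fr ha, key_al hb] at h
    simp at h
  · rw [key_fr ha, key_fr hb] at h
    simp only [Prod.mk.injEq, true_and] at h
    exact El.ext' h.2.1 h.2.2.1 (Fin.ext h.1) (Fin.ext h.2.2.2.1) h.2.2.2.2

/-- lexicographic order -/
def lx (a b : ℕ × ℕ × ℕ × ℕ × ℕ × ℕ) : Prop :=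
  a.1 < b.1 ∨ (a.1 = b.1 ∧ (a.2.1 < b.2.1 ∨ (a.2.1 = b.2.1 ∧ (a.2.2.1 < b.2.2.1 ∨ (a.2.2.1 = b.2.2.1 ∧
    (a.2.2.2.1 < b.2.2.2.1 ∨ (a.2.2.2.1 = b.2.2.2.1 ∧ (a.2.2.2.2.1 < b.2.2.2.2.1 ∨
      (a.2.2.2.2.1 = b.2.2.2.2.1 ∧ a.2.2.2.2.2 < b.2.2.2.2.2)))))))))

/-- the order of the model -/
def mlt (N : ℕ) (t t' : El N) : Prop := lx (key6 t) (key6 t')

lemma mlt_lin (N : ℕ) : Lin (mlt N) where
  irr := by
    intro t h
    unfold mlt lx at h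
    omega
  tr := by
    intro t t' t'' h h'
    unfold mlt lx at *
    omega
  tot := by
    intro t t' h
    by_contra hc
    push Not at hc
    apply h
    apply key_inj
    unfold mlt lx at hc
    refine Prod.ext (by omega) (Prod.ext (by omega) (Prod.ext (by omega) (Prod.ext (by omega) (Prod.ext (by omega) (by omega)))))

end Pool.Agent.Helper80.LE
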