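import Pool.Agent.Helper80.LE.Sound
import Pool.Agent.Helper80.LE.Key

/-!
# A linear order and an equivalence relation: from a tiling to a model
-/

set_option autoImplicit false

namespace Pool.Agent.Helper80.LE

open Pool.Agent.Helper29.Prefix Pool.Agent.Helper80.TE Pool.Agent.Helper74.W2O

variable {N : ℕ} {q : ℕ}

/-- the truth value -/
noncomputable def cb (p : Prop) : Bool := @decide p (Classical.propDecidable p)

lemma cb_true {p : Prop} : cb p = true ↔ p := @decide_eq_true_iff p (Classical.propDecidable p)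

lemma cb_false {p : Prop} : cb p = false ↔ ¬ p := @decide_eq_false_iff_not p (Classical.propDecidable p)

/-- first of its cell -/
noncomputable def mhf (t : El N) : Bool := cb ((key6 t).2.2.2.2.1 = 0)

/-- last of its cell -/
noncomputable def mlf (t : El N) : Bool := cb ((key6 t).2.2.2.2.1 = (key6 t).2.2.1 + (key6 t).2.2.2.1)

/-- the colours -/
noncomputable def mlc (N : ℕ) (f : ℕ → ℕ → Fin q) (t : El N) : LCol q :=
  ⟨mc N f t, mhf t, mlf t, cb (∀ z, ¬ mlt N z t), cb (∀ z, ¬ mlt N t z)⟩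

/-- the next element of the same cell -/
def mV (N : ℕ) (t t' : El N) : Prop := ∃ τ ex ey i σ, Al t τ ex ey i σ ∧ Al t' τ ex ey (i + 1) σ

lemma mhf_al {t : El N} {τ ex ey i σ : ℕ} (h : Al t τ ex ey i σ) : mhf t = true ↔ i = 0 := by
  unfold mhf
  rw [key_al h, cb_true]

lemma mlf_al {t : El N} {τ ex ey i σ : ℕ} (h : Al t τ ex ey i σ) : mlf t = true ↔ i = ex + ey := by
  unfold mlf
  rw [key_al h, cb_true]

lemma al_valid {t : El N} {τ ex ey i σ : ℕ} (h : Al t τ ex ey i σ) :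
    i ≤ ex + ey ∧ ((τ = 0 ∧ ex + 1 < N ∧ ey < N) ∨ (τ = 1 ∧ ex < N ∧ ey + 1 < N)) ∧ (σ = 0 ∨ σ = 1) := by
  obtain ⟨v1, v2, v3, v4, v5⟩ := t.val
  obtain ⟨h0, h⟩ := h
  rcases h with ⟨rfl, rfl, h1, h2, h3, h4, h5⟩ | ⟨rfl, rfl, h1, h2, h3, h5⟩ | ⟨rfl, rfl, h1, h2, h3, h4, h5⟩ |
    ⟨rfl, rfl, h1, h2, h3, h5⟩ <;> omega

lemma so_of_al (f : ℕ → ℕ → Fin q) {t : El N} {τ ex ey i : ℕ} (h : Al t τ ex ey i 0) : So (mlc N f t) := by
  obtain ⟨h0, h⟩ := h
  rcases h with ⟨rfl, -, h1, h2, h3, h4, h5⟩ | ⟨rfl, h, -⟩ | ⟨rfl, -, h1, h2, h3, h4, h5⟩ | ⟨rfl, h, -⟩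
  · exact Or.inl ⟨h1, decide_eq_false (by omega)⟩
  · exact absurd h (by decide)
  · exact Or.inr ⟨h1, decide_eq_false (by omega)⟩
  · exact absurd h (by decide)

lemma ta_of_al (f : ℕ → ℕ → Fin q) {t : El N} {τ ex ey i : ℕ} (h : Al t τ ex ey i 1) : Ta (mlc N f t) := by
  obtain ⟨h0, h⟩ := h
  rcases h with ⟨rfl, h, -⟩ | ⟨rfl, -, h1, h2, h3, h5⟩ | ⟨rfl, h, -⟩ | ⟨rfl, -, h1, h2, h3, h5⟩
  · exact absurd h (by decide)
  · refine ⟨Or.inl ⟨h1, decide_eq_false (by omega)⟩, ?_⟩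
    show t.kd ≠ 0
    rcases h5 with h5 | h5 <;> rw [h5.1] <;> decide
  · exact absurd h (by decide)
  · refine ⟨Or.inr ⟨h1, decide_eq_false (by omega)⟩, ?_⟩
    show t.kd ≠ 0
    rcases h5 with h5 | h5 <;> rw [h5.1] <;> decide

lemma not_so_of_fr (f : ℕ → ℕ → Fin q) {t : El N} (h : Fr t) : ¬ So (mlc N f t) := by
  have hN : t.X < N ∧ t.Y < N := ⟨t.val.1, t.val.2.1⟩
  rintro (⟨h1, h2⟩ | ⟨h1, h2⟩)
  · have h2' : t.X ≠ N - 1 := of_decide_eq_false h2
    exact h.1 ⟨h1, by omega⟩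
  · have h2' : t.Y ≠ N - 1 := of_decide_eq_false h2
    exact h.2.2.1 ⟨h1, by omega⟩

lemma not_ta_of_fr (f : ℕ → ℕ → Fin q) {t : El N} (h : Fr t) : ¬ Ta (mlc N f t) := by
  rintro ⟨⟨h1, h2⟩ | ⟨h1, h2⟩, h3⟩
  · exact h.2.1 ⟨h1, of_decide_eq_false h2, h3⟩
  · exact h.2.2.2 ⟨h1, of_decide_eq_false h2, h3⟩

lemma so_iff (f : ℕ → ℕ → Fin q) (t : El N) : So (mlc N f t) ↔ ∃ τ ex ey i, Al t τ ex ey i 0 := by
  constructor
  · intro h
    rcases view t with ⟨τ, ex, ey, i, σ, ha⟩ | ha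
    · rcases (al_valid ha).2.2 with rfl | rfl
      · exact ⟨_, _, _, _, ha⟩
      · exact absurd (ta_of_al f ha) (so_not_ta h)
    · exact absurd h (not_so_of_fr f ha)
  · rintro ⟨τ, ex, ey, i, ha⟩
    exact so_of_al f ha

lemma ta_iff (f : ℕ → ℕ → Fin q) (t : El N) : Ta (mlc N f t) ↔ ∃ τ ex ey i, Al t τ ex ey i 1 := by
  constructor
  · intro h
    rcases view t with ⟨τ, ex, ey, i, σ, ha⟩ | ha
    · rcases (al_valid ha).2.2 with rfl | rfl
      · exact absurd h (so_not_ta (so_of_al f ha))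
      · exact ⟨_, _, _, _, ha⟩
    · exact absurd h (not_ta_of_fr f ha)
  · rintro ⟨τ, ex, ey, i, ha⟩
    exact ta_of_al f ha

/-- a source is followed by its target -/
lemma cov_pair {t t' : El N} {τ ex ey i : ℕ} (h : Al t τ ex ey i 0) (h' : Al t' τ ex ey i 1) :
    Cov (mlt N) t t' := by
  refine ⟨?_, fun z hz => ?_⟩
  · unfold mlt lx
    rw [key_al h, key_al h']
    simp
  · unfold mlt lx at hz
    rw [key_al h, key_al h'] at hz
    simp only at hz
    omega

/-- a target which is not the last of its cell is followed by the next source -/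
lemma cov_next {t t' : El N} {τ ex ey i : ℕ} (h : Al t τ ex ey i 1) (h' : Al t' τ ex ey (i + 1) 0) :
    Cov (mlt N) t t' := by
  refine ⟨?_, fun z hz => ?_⟩
  · unfold mlt lx
    rw [key_al h, key_al h']
    simp
  · rcases view z with ⟨τ', ex', ey', i', σ', hz'⟩ | hz'
    · have := (al_valid hz').2.2
      unfold mlt lx at hz
      rw [key_al h, key_al h', key_al hz'] at hz
      simp only at hz
      omega
    · unfold mlt lx at hz
      rw [key_al h, key_al h', key_fr hz'] at hz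
      simp only at hz
      omega

lemma nb_pair {W : Wang (Fin q)} (f : ℕ → ℕ → Fin q) (hR : ∀ x y, x + 1 < N → y < N → W.R (f x y) (f (x + 1) y))
    (hU : ∀ x y, x < N → y + 1 < N → W.U (f x y) (f x (y + 1))) {t t' : El N} {τ ex ey i : ℕ}
    (h : Al t τ ex ey i 0) (h' : Al t' τ ex ey i 1) : Lk (mlc N f t).c (mlc N f t').c ∧
      Nb W (mlc N f t).c (mlc N f t').c := by
  have hv := (al_valid h).2.1
  obtain ⟨h0, h⟩ := h
  obtain ⟨h0', h'⟩ := h'
  rcases h with ⟨rfl, -, h1, h2, h3, h4, h5⟩ | ⟨-, h, -⟩ | ⟨rfl, -, h1, h2, h3, h4, h5⟩ | ⟨-, h, -⟩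
  · rcases h' with ⟨-, h, -⟩ | ⟨-, -, k1, k2, k3, k5⟩ | ⟨-, h, -⟩ | ⟨h, -⟩
    · exact absurd h (by decide)
    · refine ⟨Or.inl ⟨h1, k1, ?_, ?_⟩, fun _ _ => ⟨decide_eq_false (by omega), decide_eq_false (by omega), ?_, ?_, ?_⟩,
        fun h => ?_⟩
      · show t'.kd ≠ 0
        rcases k5 with k5 | k5 <;> rw [k5.1] <;> decide
      · show t.kd = 2 ↔ t'.kd = 2
        have w := t'.val.2.2.2.1
        have v := t.val.2.2.2.1
        rcases h5 with ⟨h6, h7⟩ | ⟨h7, h6⟩ | ⟨h7, h6⟩ <;> rcases k5 with ⟨k7, k6⟩ | ⟨k7, k6⟩ <;> rw [h7, k7]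
        · decide
        · omega
        · have := v h7
          omega
        · have := w k7
          omega
      · show decide (t.Y = 0) = decide (t'.Y = 0)
        rw [h3, k3]
      · show decide (t.Y = N - 1) = decide (t'.Y = N - 1)
        rw [h3, k3]
      · show W.R (f t.X t.Y) (f t'.X t'.Y)
        rw [h2, h3, k2, k3]
        exact hR _ _ h4 (by omega)
      · exact absurd (h1.symm.trans h) (by decide)
    · exact absurd h (by decide)
    · exact absurd h (by decide)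
  · exact absurd h (by decide)
  · rcases h' with ⟨-, h, -⟩ | ⟨h, -⟩ | ⟨-, h, -⟩ | ⟨-, -, k1, k2, k3, k5⟩
    · exact absurd h (by decide)
    · exact absurd h (by decide)
    · exact absurd h (by decide)
    · refine ⟨Or.inr ⟨h1, k1, ?_, ?_⟩, fun h => ?_, fun _ _ => ⟨decide_eq_false (by omega), decide_eq_false (by omega), ?_, ?_, ?_⟩⟩
      · show t'.kd ≠ 0
        rcases k5 with k5 | k5 <;> rw [k5.1] <;> decide
      · show t.kd = 1 ↔ t'.kd = 1
        have w := t'.val.2.2.2.2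
        have v := t.val.2.2.2.2
        rcases h5 with ⟨h6, h7⟩ | ⟨h7, h6⟩ | ⟨h7, h6⟩ <;> rcases k5 with ⟨k7, k6⟩ | ⟨k7, k6⟩ <;> rw [h7, k7]
        · decide
        · omega
        · have := v h7
          omega
        · have := w k7
          omega
      · exact absurd (h1.symm.trans h) (by decide)
      · show decide (t.X = 0) = decide (t'.X = 0)
        rw [h2, k2]
      · show decide (t.X = N - 1) = decide (t'.X = N - 1)
        rw [h2, k2]
      · show W.U (f t.X t.Y) (f t'.X t'.Y)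
        rw [h2, h3, k2, k3]
        exact hU _ _ (by omega) (by omega)
  · exact absurd h (by decide)

/-- the role, column and row of aligned elements -/
lemma al_same {t t' : El N} {τ ex ey i j σ : ℕ} (h : Al t τ ex ey i σ) (h' : Al t' τ ex ey j σ) :
    t.X = t'.X ∧ t.Y = t'.Y ∧ t.ro = t'.ro := by
  obtain ⟨h0, h⟩ := h
  obtain ⟨h0', h'⟩ := h'
  rcases h with ⟨rfl, rfl, h1, h2, h3, h4, h5⟩ | ⟨rfl, rfl, h1, h2, h3, h5⟩ | ⟨rfl, rfl, h1, h2, h3, h4, h5⟩ |
    ⟨rfl, rfl, h1, h2, h3, h5⟩ <;>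
  rcases h' with ⟨a1, a2, k1, k2, k3, k4, k5⟩ | ⟨a1, a2, k1, k2, k3, k5⟩ | ⟨a1, a2, k1, k2, k3, k4, k5⟩ |
    ⟨a1, a2, k1, k2, k3, k5⟩ <;> omega

/-- aligned elements of the same point and role are in the same cell -/
lemma al_cell {t t' : El N} {τ ex ey i σ τ' ex' ey' i' σ' : ℕ} (h : Al t τ ex ey i σ) (h' : Al t' τ' ex' ey' i' σ')
    (hX : t.X = t'.X) (hY : t.Y = t'.Y) (hr : t.ro = t'.ro) : τ = τ' ∧ ex = ex' ∧ ey = ey' ∧ σ = σ' := by
  obtain ⟨h0, h⟩ := h
  obtain ⟨h0', h'⟩ := h'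
  rcases h with ⟨rfl, rfl, h1, h2, h3, h4, h5⟩ | ⟨rfl, rfl, h1, h2, h3, h5⟩ | ⟨rfl, rfl, h1, h2, h3, h4, h5⟩ |
    ⟨rfl, rfl, h1, h2, h3, h5⟩ <;>
  rcases h' with ⟨rfl, rfl, k1, k2, k3, k4, k5⟩ | ⟨rfl, rfl, k1, k2, k3, k5⟩ | ⟨rfl, rfl, k1, k2, k3, k4, k5⟩ |
    ⟨rfl, rfl, k1, k2, k3, k5⟩ <;>
  first
  | exact ⟨rfl, by omega, by omega, rfl⟩
  | exact absurd (h1.symm.trans (hr.trans k1)) (by decide)

/-- the cell of a source or a target, or of an element whose role asks for a link -/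
lemma al_of_link (f : ℕ → ℕ → Fin q) {t : El N} (h : Ou (mc N f t) ∨ In (mc N f t)) :
    ∃ s : El N, s.X = t.X ∧ s.Y = t.Y ∧ s.ro = t.ro ∧ ∃ τ ex ey σ, Al s τ ex ey 0 σ := by
  obtain ⟨v1, v2, v3, v4, v5⟩ := t.val
  rcases h with (⟨h1, h2⟩ | ⟨h1, h2⟩) | (⟨h1, h2⟩ | ⟨h1, h2⟩)
  · have h2' : t.X ≠ N - 1 := of_decide_eq_false h2
    have h1' : t.ro = 0 := h1
    obtain ⟨s, hs⟩ := ex_al (N := N) 0 t.X t.Y 0 0 (by omega) (by omega) (by omega)
    have hs' := hs
    obtain ⟨-, hs'⟩ := hs'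
    rcases hs' with ⟨-, -, k1, k2, k3, -⟩ | ⟨-, k, -⟩ | ⟨k, -⟩ | ⟨k, -⟩
    · exact ⟨s, k2, k3, by rw [k1, h1'], 0, t.X, t.Y, 0, hs⟩
    all_goals exact absurd k (by decide)
  · have h2' : t.Y ≠ N - 1 := of_decide_eq_false h2
    have h1' : t.ro = 2 := h1
    obtain ⟨s, hs⟩ := ex_al (N := N) 1 t.X t.Y 0 0 (by omega) (by omega) (by omega)
    have hs' := hs
    obtain ⟨-, hs'⟩ := hs'
    rcases hs' with ⟨k, -⟩ | ⟨k, -⟩ | ⟨-, -, k1, k2, k3, -⟩ | ⟨-, k, -⟩
    · exact absurd k (by decide)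
    · exact absurd k (by decide)
    · exact ⟨s, k2, k3, by rw [k1, h1'], 1, t.X, t.Y, 0, hs⟩
    · exact absurd k (by decide)
  · have h2' : t.X ≠ 0 := of_decide_eq_false h2
    have h1' : t.ro = 1 := h1
    obtain ⟨s, hs⟩ := ex_al (N := N) 0 (t.X - 1) t.Y 0 1 (by omega) (by omega) (by omega)
    have hs' := hs
    obtain ⟨-, hs'⟩ := hs'
    rcases hs' with ⟨-, k, -⟩ | ⟨-, -, k1, k2, k3, -⟩ | ⟨k, -⟩ | ⟨k, -⟩
    · exact absurd k (by decide)
    · exact ⟨s, by omega, k3, by rw [k1, h1'], 0, t.X - 1, t.Y, 1, hs⟩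
    · exact absurd k (by decide)
    · exact absurd k (by decide)
  · have h2' : t.Y ≠ 0 := of_decide_eq_false h2
    have h1' : t.ro = 3 := h1
    obtain ⟨s, hs⟩ := ex_al (N := N) 1 t.X (t.Y - 1) 0 1 (by omega) (by omega) (by omega)
    have hs' := hs
    obtain ⟨-, hs'⟩ := hs'
    rcases hs' with ⟨k, -⟩ | ⟨k, -⟩ | ⟨-, k, -⟩ | ⟨-, -, k1, k2, k3, -⟩
    · exact absurd k (by decide)
    · exact absurd k (by decide)
    · exact absurd k (by decide)
    · exact ⟨s, k2, by omega, by rw [k1, h1'], 1, t.X, t.Y - 1, 1, hs⟩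

lemma sota_iff (f : ℕ → ℕ → Fin q) (t : El N) : (So (mlc N f t) ∨ Ta (mlc N f t)) ↔ ∃ τ ex ey i σ, Al t τ ex ey i σ := by
  rw [so_iff, ta_iff]
  constructor
  · rintro (⟨τ, ex, ey, i, h⟩ | ⟨τ, ex, ey, i, h⟩)
    · exact ⟨_, _, _, _, _, h⟩
    · exact ⟨_, _, _, _, _, h⟩
  · rintro ⟨τ, ex, ey, i, σ, h⟩
    rcases (al_valid h).2.2 with rfl | rfl
    · exact Or.inl ⟨_, _, _, _, h⟩
    · exact Or.inr ⟨_, _, _, _, h⟩

theorem le_complete {W : Wang (Fin q)} (hN : 1 ≤ N) (h : Tiles W N) : 4 * N ^ 3 ∈ szLE W := by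
  classical
  obtain ⟨f, hR, hU, hl, hr, hb, ht, hc⟩ := h
  have T := te_model (W := W) hN f hR hU hl hr hb ht hc
  haveI : Nonempty (El N) := by
    obtain ⟨x, -⟩ := T.org
    exact ⟨x⟩
  have L := mlt_lin N
  refine ⟨Nat.succ_le_of_lt (by positivity), El N, inferInstance, mlt N, mE1 N, Cov (mlt N), mV N, mF N, mQ N,
    mlc N f, ?_, ?_⟩
  · rw [El.card_El, ← h80_sum_grid N hN, Finset.mul_sum]
  exact
  { lin := L
    e1 := T.e1
    one := T.one
    same := T.same
    head := T.head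
    fF := T.fF
    F1 := T.F1
    org := T.org
    qQ := T.qQ
    Q1 := T.Q1
    Q2 := T.Q2
    sl := by
      intro x y h
      exact ⟨h.1, cb_false.2 (fun k => k y h.1), cb_false.2 (fun k => k x h.1)⟩
    s1 := by
      intro x hx
      have := cb_false.1 hx
      push Not at this
      exact cov_ex L this
    s2 := by
      intro x hx
      have := cb_false.1 hx
      push Not at this
      exact cov_ex' L this
    oe := by
      obtain ⟨x, hx, hx'⟩ := max_ex L
      exact ⟨x, cb_true.2 hx, fun y hy => hx' y (cb_true.1 hy)⟩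
    fl := by
      intro x
      refine ⟨fun hx => ?_, fun hx => ?_⟩
      · have hx' : ∀ z, ¬ mlt N z x := cb_true.1 hx
        refine ⟨fun hta => ?_, fun hso => ?_⟩
        · obtain ⟨τ, ex, ey, i, ha⟩ := (ta_iff f x).1 hta
          have hv := al_valid ha
          obtain ⟨s, hs⟩ := ex_al (N := N) τ ex ey i 0 hv.1 hv.2.1 (Or.inl rfl)
          exact hx' s (cov_pair hs ha).1
        · obtain ⟨τ, ex, ey, i, ha⟩ := (so_iff f x).1 hso
          have hv := al_valid ha
          refine (mhf_al ha).2 ?_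
          by_contra hi
          obtain ⟨s, hs⟩ := ex_al (N := N) τ ex ey (i - 1) 1 (by omega) hv.2.1 (Or.inr rfl)
          have ha' : Al x τ ex ey (i - 1 + 1) 0 := by rw [Nat.sub_add_cancel (by omega)]; exact ha
          exact hx' s (cov_next hs ha').1
      · have hx' : ∀ z, ¬ mlt N x z := cb_true.1 hx
        refine ⟨fun hso => ?_, fun hta => ?_⟩
        · obtain ⟨τ, ex, ey, i, ha⟩ := (so_iff f x).1 hso
          have hv := al_valid ha
          obtain ⟨s, hs⟩ := ex_al (N := N) τ ex ey i 1 hv.1 hv.2.1 (Or.inr rfl)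
          exact hx' s (cov_pair ha hs).1
        · obtain ⟨τ, ex, ey, i, ha⟩ := (ta_iff f x).1 hta
          have hv := al_valid ha
          refine (mlf_al ha).2 ?_
          by_contra hi
          obtain ⟨s, hs⟩ := ex_al (N := N) τ ex ey (i + 1) 0 (by omega) hv.2.1 (Or.inl rfl)
          exact hx' s (cov_next ha hs).1
    sc := by
      intro x y hxy
      refine ⟨fun hso => ?_, fun hta hso => ?_, fun hta hso => ?_, fun hta => ?_, fun hso hta hso' => ?_⟩
      · obtain ⟨τ, ex, ey, i, ha⟩ := (so_iff f x).1 hso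
        have hv := al_valid ha
        obtain ⟨s, hs⟩ := ex_al (N := N) τ ex ey i 1 hv.1 hv.2.1 (Or.inr rfl)
        have e := cov_right L hxy (cov_pair ha hs)
        subst e
        obtain ⟨k1, k2⟩ := nb_pair (W := W) f hR hU ha hs
        refine ⟨ta_of_al f hs, k1, k2, ?_, ?_⟩
        · show mhf x = mhf y
          rw [Bool.eq_iff_iff, mhf_al ha, mhf_al hs]
        · show mlf x = mlf y
          rw [Bool.eq_iff_iff, mlf_al ha, mlf_al hs]
      · obtain ⟨τ, ex, ey, i, ha⟩ := (ta_iff f x).1 hta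
        obtain ⟨τ', ex', ey', i', hb⟩ := (so_iff f y).1 hso
        have hv := al_valid ha
        have hv' := al_valid hb
        show mlf x = mhf y
        rw [Bool.eq_iff_iff, mlf_al ha, mhf_al hb]
        by_cases hi : i = ex + ey
        · refine iff_of_true hi ?_
          by_contra hi'
          obtain ⟨s, hs⟩ := ex_al (N := N) τ' ex' ey' (i' - 1) 1 (by omega) hv'.2.1 (Or.inr rfl)
          have hb' : Al y τ' ex' ey' (i' - 1 + 1) 0 := by rw [Nat.sub_add_cancel (by omega)]; exact hb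
          have e := cov_left L hxy (cov_next hs hb')
          subst e
          have k1 := key_al ha
          rw [key_al hs] at k1
          simp only [Prod.mk.injEq, true_and] at k1
          omega
        · refine iff_of_false hi ?_
          obtain ⟨s, hs⟩ := ex_al (N := N) τ ex ey (i + 1) 0 (by omega) hv.2.1 (Or.inl rfl)
          have e := cov_right L hxy (cov_next ha hs)
          subst e
          have k1 := key_al hb
          rw [key_al hs] at k1
          simp only [Prod.mk.injEq, true_and] at k1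
          omega
      · obtain ⟨τ, ex, ey, i, ha⟩ := (ta_iff f x).1 hta
        have hv := al_valid ha
        refine (mlf_al ha).2 ?_
        by_contra hi
        obtain ⟨s, hs⟩ := ex_al (N := N) τ ex ey (i + 1) 0 (by omega) hv.2.1 (Or.inl rfl)
        have e := cov_right L hxy (cov_next ha hs)
        subst e
        exact hso (so_of_al f hs)
      · obtain ⟨τ, ex, ey, i, ha⟩ := (ta_iff f y).1 hta
        have hv := al_valid ha
        obtain ⟨s, hs⟩ := ex_al (N := N) τ ex ey i 0 hv.1 hv.2.1 (Or.inl rfl)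
        have e := cov_left L hxy (cov_pair hs ha)
        subst e
        exact so_of_al f hs
      · rcases view x with ⟨τ, ex, ey, i, σ, ha⟩ | ha
        · rcases (sota_iff f x).2 ⟨τ, ex, ey, i, σ, ha⟩ with h | h
          · exact hso h
          · exact hta h
        · obtain ⟨τ, ex, ey, i, hb⟩ := (so_iff f y).1 hso'
          have := hxy.1
          unfold mlt lx at this
          rw [key_al hb, key_fr ha] at this
          simp at this
    vv := by
      rintro x y ⟨τ, ex, ey, i, σ, ha, hb⟩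
      obtain ⟨k1, k2, k3⟩ := al_same ha hb
      have hv := al_valid hb
      refine ⟨?_, ⟨k1, k2⟩, k3, ?_, ?_, (sota_iff f x).2 ⟨_, _, _, _, _, ha⟩, (sota_iff f y).2 ⟨_, _, _, _, _, hb⟩⟩
      · unfold mlt lx
        rw [key_al ha, key_al hb]
        simp
      · show mlf x = false
        rw [← Bool.not_eq_true, mlf_al ha]
        omega
      · show mhf y = false
        rw [← Bool.not_eq_true, mhf_al hb]
        omega
    v1 := by
      intro x hx hlf
      obtain ⟨τ, ex, ey, i, σ, ha⟩ := (sota_iff f x).1 hx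
      have hv := al_valid ha
      have hlf' : mlf x = false := hlf
      rw [← Bool.not_eq_true, mlf_al ha] at hlf'
      obtain ⟨s, hs⟩ := ex_al (N := N) τ ex ey (i + 1) σ (by omega) hv.2.1 hv.2.2
      refine ⟨s, ⟨τ, ex, ey, i, σ, ha, hs⟩, ?_⟩
      rintro s' ⟨τ', ex', ey', i', σ', ha', hs'⟩
      have k1 := key_al ha
      rw [key_al ha'] at k1
      simp only [Prod.mk.injEq, true_and] at k1
      obtain ⟨rfl, rfl, rfl, rfl, rfl⟩ := k1
      exact al_inj hs' hs
    v2 := by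
      intro x hx hhf
      obtain ⟨τ, ex, ey, i, σ, ha⟩ := (sota_iff f x).1 hx
      have hv := al_valid ha
      have hhf' : mhf x = false := hhf
      rw [← Bool.not_eq_true, mhf_al ha] at hhf'
      obtain ⟨j, rfl⟩ : ∃ j, i = j + 1 := ⟨i - 1, by omega⟩
      obtain ⟨s, hs⟩ := ex_al (N := N) τ ex ey j σ (by omega) hv.2.1 hv.2.2
      refine ⟨s, ⟨τ, ex, ey, j, σ, hs, ha⟩, ?_⟩
      rintro s' ⟨τ', ex', ey', i', σ', ha', hs'⟩
      have k1 := key_al ha
      rw [key_al hs'] at k1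
      simp only [Prod.mk.injEq, true_and, Nat.add_right_cancel_iff] at k1
      obtain ⟨rfl, rfl, rfl, rfl, rfl⟩ := k1
      exact al_inj ha' hs
    hd := by
      intro x hx
      obtain ⟨s, s1, s2, s3, τ, ex, ey, σ, hs⟩ := al_of_link f hx
      refine ⟨s, ⟨⟨s1.symm, s2.symm⟩, s3, (sota_iff f s).2 ⟨_, _, _, _, _, hs⟩, (mhf_al hs).2 rfl⟩, ?_⟩
      rintro s' ⟨⟨a1, a2⟩, a3, a4, a5⟩
      obtain ⟨τ', ex', ey', i', σ', hs'⟩ := (sota_iff f s').1 a4
      have a5' := (mhf_al hs').1 a5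
      have a3' : s'.ro = x.ro := a3
      obtain ⟨rfl, rfl, rfl, rfl⟩ := al_cell hs' hs (by omega) (by omega) (by rw [a3', s3])
      subst a5'
      exact al_inj hs' hs }

/-- The sizes of the models are the numbers `4 N ^ 3` where the square of side `N` can be tiled. -/
theorem le_sizes (W : Wang (Fin q)) (hN : 1 ≤ N) : Tiles W N ↔ 4 * N ^ 3 ∈ szLE W := by
  refine ⟨le_complete hN, ?_⟩
  rintro ⟨-, M, _, lt, E, S, V, F, Q, c, hcard, H⟩
  obtain ⟨N', hN', hcard', ht⟩ := te_sound (teAx_of_leAx H)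
  have : N ^ 3 = N' ^ 3 := by omega
  rw [Nat.pow_left_injective (n := 3) (by norm_num) this]
  exact ht

end Pool.Agent.Helper80.LE
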