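import Pool.Agent.Helper74.W2O.Mod

/-!
# Successors in finite linear orders
-/

set_option autoImplicit false

namespace Pool.Agent.Helper80.LE

open Pool.Agent.Helper74.W2O

variable {M : Type} {lt : M → M → Prop}

/-- `y` covers `x` -/
def Cov (lt : M → M → Prop) (x y : M) : Prop := lt x y ∧ ∀ z, ¬ (lt x z ∧ lt z y)

lemma cov_right (H : Lin lt) {x y y' : M} (h : Cov lt x y) (h' : Cov lt x y') : y = y' := by
  by_contra hne
  rcases H.tot y y' hne with k | k
  · exact h'.2 y ⟨h.1, k⟩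
  · exact h.2 y' ⟨h'.1, k⟩

lemma cov_left (H : Lin lt) {x x' y : M} (h : Cov lt x y) (h' : Cov lt x' y) : x = x' := by
  by_contra hne
  rcases H.tot x x' hne with k | k
  · exact h.2 x' ⟨k, h'.1⟩
  · exact h'.2 x ⟨k, h.1⟩

lemma cov_ex [Finite M] (H : Lin lt) {x : M} (h : ∃ z, lt x z) : ∃! y, Cov lt x y := by
  haveI := Fintype.ofFinite M
  obtain ⟨rk, h0, h1, h2, h3⟩ := exists_rank H
  obtain ⟨z, hz⟩ := h
  have hz' := (h2 _ _).1 hz
  have := h0 z
  obtain ⟨y, hy⟩ := h3 (rk x + 1) (by omega)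
  have hc : Cov lt x y := by
    refine ⟨(h2 _ _).2 (by omega), fun w hw => ?_⟩
    have := (h2 _ _).1 hw.1
    have := (h2 _ _).1 hw.2
    omega
  exact ⟨y, hc, fun y' hy' => cov_right H hy' hc⟩

lemma cov_ex' [Finite M] (H : Lin lt) {y : M} (h : ∃ z, lt z y) : ∃! x, Cov lt x y := by
  haveI := Fintype.ofFinite M
  obtain ⟨rk, h0, h1, h2, h3⟩ := exists_rank H
  obtain ⟨z, hz⟩ := h
  have hz' := (h2 _ _).1 hz
  have := h0 y
  obtain ⟨x, hx⟩ := h3 (rk y - 1) (by omega)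
  have hc : Cov lt x y := by
    refine ⟨(h2 _ _).2 (by omega), fun w hw => ?_⟩
    have := (h2 _ _).1 hw.1
    have := (h2 _ _).1 hw.2
    omega
  exact ⟨x, hc, fun y' hy' => cov_left H hy' hc⟩

lemma max_ex [Finite M] [Nonempty M] (H : Lin lt) : ∃! x, ∀ z, ¬ lt x z := by
  haveI := Fintype.ofFinite M
  obtain ⟨rk, h0, h1, h2, h3⟩ := exists_rank H
  obtain ⟨x, hx⟩ := Finite.exists_max rk
  refine ⟨x, fun z hz => ?_, fun y hy => ?_⟩
  · have := (h2 _ _).1 hz
    have := hx z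
    omega
  · by_contra hne
    rcases H.tot y x hne with k | k
    · exact hy x k
    · have := (h2 _ _).1 k
      have := hx y
      omega

end Pool.Agent.Helper80.LE
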