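import Pool.Agent.Helper80.TE.Complete
import Pool.Agent.Helper74.W2O.Mod

/-!
# A linear order and an equivalence relation: the axioms of the board (wild half of C2)

The points of the board are the classes of the equivalence relation, with the four cells of the case of two equivalence
relations. The linear order begins with pairs (element of a right or upper cell, element of the left or lower cell of
the neighbour); all other elements follow. The elements of a cell are consecutive pairs.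
-/

set_option autoImplicit false

namespace Pool.Agent.Helper80.LE

open Pool.Agent.Helper29.Prefix Pool.Agent.Helper80.TE Pool.Agent.Helper74.W2O

/-- the colours -/
structure LCol (q : ℕ) where
  /-- the colour of the board -/
  c : Col q
  /-- first element of its cell -/
  hf : Bool
  /-- last element of its cell -/
  lf : Bool
  /-- first element of the order -/
  f1 : Bool
  /-- last element of the order -/
  e1 : Bool

/-- first components of pairs -/
def So {q : ℕ} (c : LCol q) : Prop := Ou c.c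

/-- second components of pairs -/
def Ta {q : ℕ} (c : LCol q) : Prop := In c.c ∧ c.c.kind ≠ 0

/-- conditions on the first and the last element -/
def FL {q : ℕ} (c : LCol q) : Prop :=
  (c.f1 = true → ¬ Ta c ∧ (So c → c.hf = true)) ∧ (c.e1 = true → ¬ So c ∧ (Ta c → c.lf = true))

/-- conditions on consecutive elements -/
def Sc {q : ℕ} (W : Wang (Fin q)) (c c' : LCol q) : Prop :=
  (So c → Ta c' ∧ Lk c.c c'.c ∧ Nb W c.c c'.c ∧ c.hf = c'.hf ∧ c.lf = c'.lf) ∧
  (Ta c → So c' → c.lf = c'.hf) ∧ (Ta c → ¬ So c' → c.lf = true) ∧ (Ta c' → So c) ∧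
  (¬ So c → ¬ Ta c → ¬ So c')

/-- the axioms -/
structure LEAx {q : ℕ} (W : Wang (Fin q)) {M : Type} (lt E S V F Q : M → M → Prop) (c : M → LCol q) : Prop where
  lin : Lin lt
  e1 : Equivalence E
  one : ∀ x, One W (c x).c
  same : ∀ x y, E x y → Same (c x).c (c y).c
  head : ∀ x, ∀ r : Fin 4, ∃! y, E x y ∧ (c y).c.role = r ∧ (c y).c.kind = 0
  fF : ∀ x y, F x y → E x y ∧ (c x).c.kind = (c y).c.kind ∧ F y x
  F1 : ∀ x, (c x).c.kind ≠ 0 → ∀ r : Fin 4, r ≠ (c x).c.role → ∃! y, F x y ∧ (c y).c.role = r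
  org : ∃! x, (c x).c.role = 0 ∧ (c x).c.kind = 0 ∧ (c x).c.fl = true ∧ (c x).c.fd = true
  qQ : ∀ x y, Q x y → E x y ∧ Cn (c x).c 1 ∧ Cn (c y).c 2
  Q1 : ∀ x, Cn (c x).c 1 → ∃! y, Q x y
  Q2 : ∀ y, Cn (c y).c 2 → ∃! x, Q x y
  sl : ∀ x y, S x y → lt x y ∧ (c x).e1 = false ∧ (c y).f1 = false
  s1 : ∀ x, (c x).e1 = false → ∃! y, S x y
  s2 : ∀ y, (c y).f1 = false → ∃! x, S x y
  oe : ∃! x, (c x).e1 = true
  fl : ∀ x, FL (c x)
  sc : ∀ x y, S x y → Sc W (c x) (c y)
  vv : ∀ x y, V x y → lt x y ∧ E x y ∧ (c x).c.role = (c y).c.role ∧ (c x).lf = false ∧ (c y).hf = false ∧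
    (So (c x) ∨ Ta (c x)) ∧ (So (c y) ∨ Ta (c y))
  v1 : ∀ x, So (c x) ∨ Ta (c x) → (c x).lf = false → ∃! y, V x y
  v2 : ∀ y, So (c y) ∨ Ta (c y) → (c y).hf = false → ∃! x, V x y
  hd : ∀ x, Ou (c x).c ∨ In (c x).c → ∃! y, E x y ∧ (c y).c.role = (c x).c.role ∧ (So (c y) ∨ Ta (c y)) ∧
    (c y).hf = true

/-- the sizes of the models -/
def szLE {q : ℕ} (W : Wang (Fin q)) : Set ℕ :=
  {n : ℕ | 1 ≤ n ∧ ∃ (M : Type) (_ : Fintype M) (lt E S V F Q : M → M → Prop) (c : M → LCol q),
    Fintype.card M = n ∧ LEAx W lt E S V F Q c}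

end Pool.Agent.Helper80.LE
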