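import Pool.Agent.Helper80.LE.Defs

/-!
# A linear order and an equivalence relation: from a model to a model with two equivalence relations
-/

set_option autoImplicit false

namespace Pool.Agent.Helper80.LE

open Pool.Agent.Helper29.Prefix Pool.Agent.Helper80.TE Pool.Agent.Helper74.W2O

variable {q : ℕ} {W : Wang (Fin q)} {M : Type} {lt E S V F Q : M → M → Prop} {c : M → LCol q}

/-- two increasing bijections onto the same set, one of them minimal, are equal -/
lemma h80_perm {α : Type} [Finite α] {s t : α → Prop} (r : α → ℕ) (hr : Function.Injective r) (f g : α → α)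
    (hf : ∀ x, s x → t (f x)) (hg : ∀ x, s x → t (g x))
    (hf' : ∀ x y, s x → s y → f x = f y → x = y) (hf2 : ∀ y, t y → ∃ x, s x ∧ f x = y)
    (hg' : ∀ x y, s x → s y → g x = g y → x = y) (hg2 : ∀ y, t y → ∃ x, s x ∧ g x = y)
    (hle : ∀ x, s x → r (f x) ≤ r (g x)) : ∀ x, s x → f x = g x := by
  classical
  haveI := Fintype.ofFinite α
  have h1 : ∑ x ∈ Finset.univ.filter s, r (f x) = ∑ y ∈ Finset.univ.filter t, r y := by
    refine Finset.sum_bij (fun x _ => f x) ?_ ?_ ?_ ?_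
    · intro x hx
      simp only [Finset.mem_filter, Finset.mem_univ, true_and] at hx ⊢
      exact hf x hx
    · intro x hx y hy hxy
      simp only [Finset.mem_filter, Finset.mem_univ, true_and] at hx hy
      exact hf' x y hx hy hxy
    · intro y hy
      simp only [Finset.mem_filter, Finset.mem_univ, true_and] at hy
      obtain ⟨x, hx, hxy⟩ := hf2 y hy
      exact ⟨x, by simpa using hx, hxy⟩
    · intro x hx
      rfl
  have h2 : ∑ x ∈ Finset.univ.filter s, r (g x) = ∑ y ∈ Finset.univ.filter t, r y := by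
    refine Finset.sum_bij (fun x _ => g x) ?_ ?_ ?_ ?_
    · intro x hx
      simp only [Finset.mem_filter, Finset.mem_univ, true_and] at hx ⊢
      exact hg x hx
    · intro x hx y hy hxy
      simp only [Finset.mem_filter, Finset.mem_univ, true_and] at hx hy
      exact hg' x y hx hy hxy
    · intro y hy
      simp only [Finset.mem_filter, Finset.mem_univ, true_and] at hy
      obtain ⟨x, hx, hxy⟩ := hg2 y hy
      exact ⟨x, by simpa using hx, hxy⟩
    · intro x hx
      rfl
  have h3 := (Finset.sum_eq_sum_iff_of_le (fun x hx => hle x (by simpa using hx))).1 (h1.trans h2.symm)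
  intro x hx
  exact hr (h3 x (by simpa using hx))

lemma so_not_ta {c : LCol q} (h : So c) : ¬ Ta c := by
  rintro ⟨h1, -⟩
  rcases h with h | h <;> rcases h1 with h1 | h1 <;> rw [h.1] at h1 <;> exact absurd h1.1 (by decide)

section

variable (H : LEAx W lt E S V F Q c)
include H

lemma so_congr {x y : M} (h : E x y) (hr : (c x).c.role = (c y).c.role) (hx : So (c x)) : So (c y) := by
  have s1 := H.same _ _ h
  unfold So Ou at hx ⊢
  rw [← hr, ← s1.2.2.1, ← s1.2.2.2.2]
  exact hx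

lemma in_congr {x y : M} (h : E x y) (hr : (c x).c.role = (c y).c.role) (hx : In (c x).c) : In (c y).c := by
  have s1 := H.same _ _ h
  unfold In at hx ⊢
  rw [← hr, ← s1.2.1, ← s1.2.2.2.1]
  exact hx

/-- a linked cell and the cell it is linked to -/
def Lnk (E S : M → M → Prop) (c : M → LCol q) (x y : M) : Prop :=
  ∃ s t, So (c s) ∧ S s t ∧ E s x ∧ (c s).c.role = (c x).c.role ∧ E t y ∧ (c t).c.role = (c y).c.role

/-- the element after -/
theorem exists_nu [Finite M] : ∃ (rk : M → ℕ), Function.Injective rk ∧ (∀ x y, lt x y ↔ rk x < rk y) ∧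
    (∀ x y, S x y ↔ rk y = rk x + 1) := by
  classical
  haveI := Fintype.ofFinite M
  obtain ⟨rk, h0, h1, h2, h3⟩ := exists_rank H.lin
  refine ⟨rk, h1, h2, succ_iff h0 h1 h2 h3 (fun x y h => (H.sl x y h).1) ?_ ?_⟩
  · intro x x' y h h'
    obtain ⟨z, -, hz⟩ := H.s2 y (H.sl _ _ h).2.2
    rw [hz x h, hz x' h']
  · intro x x' h h'
    obtain ⟨z, -, hz⟩ := H.oe
    have k : ∀ x, (∀ y, ¬ S x y) → (c x).e1 = true := by
      intro x h
      by_contra hc
      obtain ⟨y, hy, -⟩ := H.s1 x (by simpa using hc)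
      exact h y hy
    rw [hz x (k x h), hz x' (k x' h')]

/-- the run structure: the cell of a source is linked to one cell -/
theorem runs [Finite M] : ∀ x y, So (c x) → S x y → ∃ h k, So (c h) ∧ S h k ∧ (c h).hf = true ∧ E h x ∧
    (c h).c.role = (c x).c.role ∧ E k y ∧ (c k).c.role = (c y).c.role := by
  classical
  obtain ⟨rk, hinj, hlt, hS⟩ := exists_nu H
  -- the partner
  have hpart : ∀ x, So (c x) → ∃ y, S x y ∧ Ta (c y) ∧ (c x).hf = (c y).hf ∧ (c x).lf = (c y).lf := by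
    intro x hx
    have he : (c x).e1 = false := by
      by_contra hc
      exact ((H.fl x).2 (by simpa using hc)).1 hx
    obtain ⟨y, hy, -⟩ := H.s1 x he
    have := (H.sc x y hy).1 hx
    exact ⟨y, hy, this.1, this.2.2.2.1, this.2.2.2.2⟩
  have hback : ∀ y, Ta (c y) → ∃ x, S x y ∧ So (c x) ∧ (c x).hf = (c y).hf ∧ (c x).lf = (c y).lf := by
    intro y hy
    have he : (c y).f1 = false := by
      by_contra hc
      exact ((H.fl y).1 (by simpa using hc)).1 hy
    obtain ⟨x, hx, -⟩ := H.s2 y he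
    have h4 := (H.sc x y hx).2.2.2.1 hy
    have := (H.sc x y hx).1 h4
    exact ⟨x, hx, h4, this.2.2.2.1, this.2.2.2.2⟩
  -- after a target which is not the last of its cell
  have hnext : ∀ y, Ta (c y) → (c y).lf = false → ∃ z, S y z ∧ So (c z) ∧ (c z).hf = false := by
    intro y hy hl
    have he : (c y).e1 = false := by
      by_contra hc
      have := ((H.fl y).2 (by simpa using hc)).2 hy
      rw [hl] at this
      exact absurd this (by decide)
    obtain ⟨z, hz, -⟩ := H.s1 y he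
    have h5 := H.sc y z hz
    by_cases hzs : So (c z)
    · exact ⟨z, hz, hzs, by rw [← h5.2.1 hy hzs, hl]⟩
    · have := h5.2.2.1 hy hzs
      rw [hl] at this
      exact absurd this (by decide)
  have hprev : ∀ z, So (c z) → (c z).hf = false → ∃ y, S y z ∧ Ta (c y) ∧ (c y).lf = false := by
    intro z hz hh
    have he : (c z).f1 = false := by
      by_contra hc
      have := ((H.fl z).1 (by simpa using hc)).2 hz
      rw [hh] at this
      exact absurd this (by decide)
    obtain ⟨y, hy, -⟩ := H.s2 z he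
    have h5 := H.sc y z hy
    have hys : ¬ So (c y) := fun h => so_not_ta hz (h5.1 h).1
    have hyt : Ta (c y) := by
      by_contra h
      exact h5.2.2.2.2 hys h hz
    exact ⟨y, hy, hyt, by rw [h5.2.1 hyt hz, hh]⟩
  -- the next element of the same side
  have hnu : ∀ x, (So (c x) ∨ Ta (c x)) → (c x).lf = false → ∃ z, rk z = rk x + 2 ∧ (So (c z) ∨ Ta (c z)) ∧
      (c z).hf = false ∧ (So (c x) ↔ So (c z)) := by
    rintro x (hx | hx) hl
    · obtain ⟨y, h1, h2, h3, h4⟩ := hpart x hx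
      obtain ⟨z, h5, h6, h7⟩ := hnext y h2 (by rw [← h4, hl])
      refine ⟨z, ?_, Or.inl h6, h7, iff_of_true hx h6⟩
      have := (hS _ _).1 h1
      have := (hS _ _).1 h5
      omega
    · obtain ⟨y, h1, h2, h3⟩ := hnext x hx hl
      obtain ⟨z, h4, h5, h6, h7⟩ := hpart y h2
      refine ⟨z, ?_, Or.inr h5, by rw [← h6, h3], iff_of_false (fun h => so_not_ta h hx) (fun h => so_not_ta h h5)⟩
      have := (hS _ _).1 h1
      have := (hS _ _).1 h4
      omega
  have hmu : ∀ z, (So (c z) ∨ Ta (c z)) → (c z).hf = false → ∃ x, rk z = rk x + 2 ∧ (So (c x) ∨ Ta (c x)) ∧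
      (c x).lf = false ∧ (So (c x) ↔ So (c z)) := by
    rintro z (hz | hz) hh
    · obtain ⟨y, h1, h2, h3⟩ := hprev z hz hh
      obtain ⟨x, h4, h5, h6, h7⟩ := hback y h2
      refine ⟨x, ?_, Or.inl h5, by rw [h7, h3], iff_of_true h5 hz⟩
      have := (hS _ _).1 h1
      have := (hS _ _).1 h4
      omega
    · obtain ⟨y, h1, h2, h3, h4⟩ := hback z hz
      obtain ⟨x, h5, h6, h7⟩ := hprev y h2 (by rw [h3, hh])
      refine ⟨x, ?_, Or.inr h6, h7, iff_of_false (fun h => so_not_ta h h6) (fun h => so_not_ta h hz)⟩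
      have := (hS _ _).1 h1
      have := (hS _ _).1 h5
      omega
  choose! nu nu1 nu2 nu3 nu4 using hnu
  choose! mu mu1 mu2 mu3 mu4 using hmu
  have hvv : ∀ x, (So (c x) ∨ Ta (c x)) ∧ (c x).lf = false → ∃ y, V x y := fun x hx => (H.v1 x hx.1 hx.2).exists
  choose! vv hvv using hvv
  -- `V` is the next element of the same side
  have key : ∀ x, ((So (c x) ∨ Ta (c x)) ∧ (c x).lf = false) → nu x = vv x := by
    refine h80_perm (s := fun x => (So (c x) ∨ Ta (c x)) ∧ (c x).lf = false)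
      (t := fun x => (So (c x) ∨ Ta (c x)) ∧ (c x).hf = false) rk hinj nu vv ?_ ?_ ?_ ?_ ?_ ?_ ?_
    · exact fun x hx => ⟨nu2 x hx.1 hx.2, nu3 x hx.1 hx.2⟩
    · intro x hx
      have := H.vv _ _ (hvv x hx)
      exact ⟨this.2.2.2.2.2.2, this.2.2.2.2.1⟩
    · intro x y hx hy hxy
      have e1 := nu1 x hx.1 hx.2
      have e2 := nu1 y hy.1 hy.2
      exact hinj (by rw [hxy] at e1; omega)
    · intro y hy
      refine ⟨mu y, ⟨mu2 y hy.1 hy.2, mu3 y hy.1 hy.2⟩, hinj ?_⟩
      rw [nu1 _ (mu2 y hy.1 hy.2) (mu3 y hy.1 hy.2), mu1 y hy.1 hy.2]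
    · intro x y hx hy hxy
      have e1 := hvv x hx
      have e2 := hvv y hy
      rw [← hxy] at e2
      have e3 := H.vv _ _ e1
      obtain ⟨z, -, hz⟩ := H.v2 (vv x) e3.2.2.2.2.2.2 e3.2.2.2.2.1
      rw [hz x e1, hz y e2]
    · intro y hy
      obtain ⟨x, hx, -⟩ := H.v2 y hy.1 hy.2
      have e3 := H.vv _ _ hx
      refine ⟨x, ⟨e3.2.2.2.2.2.1, e3.2.2.2.1⟩, ?_⟩
      obtain ⟨z, -, hz⟩ := H.v1 x e3.2.2.2.2.2.1 e3.2.2.2.1
      rw [hz _ (hvv x ⟨e3.2.2.2.2.2.1, e3.2.2.2.1⟩), hz y hx]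
    · intro x hx
      have e1 := hvv x hx
      have e3 := H.vv _ _ e1
      have e4 := (hlt _ _).1 e3.1
      rw [nu1 x hx.1 hx.2]
      -- the element after `x` is of the other side
      by_contra h5
      have h6 : rk (vv x) = rk x + 1 := by omega
      have h7 : S x (vv x) := (hS _ _).2 h6
      rcases hx.1 with h8 | h8
      · have h9 := ((H.sc _ _ h7).1 h8).1
        exact so_not_ta (so_congr H e3.2.1 e3.2.2.1 h8) h9
      · have h9 : So (c (vv x)) := by
          obtain ⟨z, hz1, hz2, hz3⟩ := hnext x h8 hx.2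
          have : z = vv x := hinj (by rw [(hS _ _).1 hz1, h6])
          rw [← this]
          exact hz2
        exact so_not_ta (so_congr H (H.e1.symm e3.2.1) e3.2.2.1.symm h9) h8
  -- induction on the rank
  have main : ∀ n x y, rk x ≤ n → So (c x) → S x y → ∃ h k, So (c h) ∧ S h k ∧ (c h).hf = true ∧ E h x ∧
      (c h).c.role = (c x).c.role ∧ E k y ∧ (c k).c.role = (c y).c.role := by
    intro n
    induction n with
    | zero =>
      intro x y hn hx hxy
      refine ⟨x, y, hx, hxy, ?_, H.e1.refl x, rfl, H.e1.refl y, rfl⟩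
      by_contra hc
      have := mu1 x (Or.inl hx) (by simpa using hc)
      omega
    | succ n ih =>
      intro x y hn hx hxy
      by_cases hc : (c x).hf = true
      · exact ⟨x, y, hx, hxy, hc, H.e1.refl x, rfl, H.e1.refl y, rfl⟩
      · have hc' : (c x).hf = false := by simpa using hc
        have a1 := mu1 x (Or.inl hx) hc'
        have a2 := (mu4 x (Or.inl hx) hc').2 hx
        have a3 := mu3 x (Or.inl hx) hc'
        obtain ⟨t, b1, b2, b3, b4⟩ := hpart (mu x) a2
        have e1 := (hS _ _).1 b1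
        have e2 := (hS _ _).1 hxy
        have c1 : vv (mu x) = x := by
          rw [← key (mu x) ⟨Or.inl a2, a3⟩]
          exact hinj (by rw [nu1 _ (Or.inl a2) a3, a1])
        have c2 : vv t = y := by
          have hl : (c t).lf = false := by rw [← b4, a3]
          rw [← key t ⟨Or.inr b2, hl⟩]
          exact hinj (by rw [nu1 _ (Or.inr b2) hl]; omega)
        have d1 := H.vv _ _ (hvv (mu x) ⟨Or.inl a2, a3⟩)
        have d2 := H.vv _ _ (hvv t ⟨Or.inr b2, by rw [← b4, a3]⟩)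
        rw [c1] at d1
        rw [c2] at d2
        obtain ⟨h, k, h1, h2, h3, h4, h5, h6, h7⟩ := ih (mu x) t (by omega) a2 b1
        exact ⟨h, k, h1, h2, h3, H.e1.trans h4 d1.2.1, h5.trans d1.2.2.1, H.e1.trans h6 d2.2.1, h7.trans d2.2.2.1⟩
  exact fun x y hx hxy => main (rk x) x y le_rfl hx hxy

/-- two links from the same cell -/
lemma link1 [Finite M] {x y x' y' : M} (hx : So (c x)) (hxy : S x y) (hx' : So (c x')) (hxy' : S x' y')
    (he : E x x') (hr : (c x).c.role = (c x').c.role) : E y y' ∧ (c y).c.role = (c y').c.role := by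
  obtain ⟨h, k, h1, h2, h3, h4, h5, h6, h7⟩ := runs H x y hx hxy
  obtain ⟨h', k', h1', h2', h3', h4', h5', h6', h7'⟩ := runs H x' y' hx' hxy'
  obtain ⟨z, -, hz⟩ := H.hd x (Or.inl hx)
  have e : h = h' := by
    rw [hz h ⟨H.e1.symm h4, h5, Or.inl h1, h3⟩,
      hz h' ⟨H.e1.trans he (H.e1.symm h4'), h5'.trans hr.symm, Or.inl h1', h3'⟩]
  subst e
  obtain ⟨w, -, hw⟩ := H.s1 h (H.sl _ _ h2).2.1
  have e' : k = k' := by rw [hw k h2, hw k' h2']
  subst e'
  exact ⟨H.e1.trans (H.e1.symm h6) h6', h7.symm.trans h7'⟩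

/-- two links to the same cell -/
lemma link2 [Finite M] {x y x' y' : M} (hx : So (c x)) (hxy : S x y) (hx' : So (c x')) (hxy' : S x' y')
    (he : E y y') (hr : (c y).c.role = (c y').c.role) : E x x' ∧ (c x).c.role = (c x').c.role := by
  obtain ⟨h, k, h1, h2, h3, h4, h5, h6, h7⟩ := runs H x y hx hxy
  obtain ⟨h', k', h1', h2', h3', h4', h5', h6', h7'⟩ := runs H x' y' hx' hxy'
  have ty := ((H.sc _ _ hxy).1 hx).1
  have tk := (H.sc _ _ h2).1 h1
  have tk' := (H.sc _ _ h2').1 h1'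
  obtain ⟨z, -, hz⟩ := H.hd y (Or.inr ty.1)
  have e : k = k' := by
    rw [hz k ⟨H.e1.symm h6, h7, Or.inr tk.1, by rw [← tk.2.2.2.1, h3]⟩,
      hz k' ⟨H.e1.trans he (H.e1.symm h6'), h7'.trans hr.symm, Or.inr tk'.1, by rw [← tk'.2.2.2.1, h3']⟩]
  subst e
  obtain ⟨w, -, hw⟩ := H.s2 k (H.sl _ _ h2).2.2
  have e' : h = h' := by rw [hw h h2, hw h' h2']
  subst e'
  exact ⟨H.e1.trans (H.e1.symm h4) h4', h5.symm.trans h5'⟩

/-- the second equivalence relation -/
def E2' (E S : M → M → Prop) (c : M → LCol q) (x y : M) : Prop :=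
  (E x y ∧ (c x).c.role = (c y).c.role) ∨ Lnk E S c x y ∨ Lnk E S c y x

lemma lnk_role {x y : M} (h : Lnk E S c x y) : Opp (c x).c (c y).c := by
  obtain ⟨s, t, h1, h2, h3, h4, h5, h6⟩ := h
  have := ((H.sc _ _ h2).1 h1).2.1
  rcases this with h7 | h7
  · exact Or.inl ⟨by rw [← h4, h7.1], by rw [← h6, h7.2.1]⟩
  · exact Or.inr ⟨by rw [← h4, h7.1], by rw [← h6, h7.2.1]⟩

end

lemma opp_absurd {a b d : Col q} (h : Opp a b) (h' : Opp b d) : False := by
  rcases h with h | h <;> rcases h' with h' | h' <;> rw [h.2] at h' <;> exact absurd h'.1 (by decide)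

lemma opp_ne {a b : Col q} (h : Opp a b) : a.role ≠ b.role := by
  rcases h with h | h <;> rw [h.1, h.2] <;> decide

section

variable (H : LEAx W lt E S V F Q c)
include H

lemma lnk_left {x x' y : M} (he : E x x') (hr : (c x).c.role = (c x').c.role) (h : Lnk E S c x y) :
    Lnk E S c x' y := by
  obtain ⟨s, t, h1, h2, h3, h4, h5, h6⟩ := h
  exact ⟨s, t, h1, h2, H.e1.trans h3 he, h4.trans hr, h5, h6⟩

lemma lnk_right {x y y' : M} (he : E y y') (hr : (c y).c.role = (c y').c.role) (h : Lnk E S c x y) :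
    Lnk E S c x y' := by
  obtain ⟨s, t, h1, h2, h3, h4, h5, h6⟩ := h
  exact ⟨s, t, h1, h2, h3, h4, H.e1.trans h5 he, h6.trans hr⟩

lemma e2'_equiv [Finite M] : Equivalence (E2' E S c) := by
  refine ⟨fun x => Or.inl ⟨H.e1.refl x, rfl⟩, ?_, ?_⟩
  · rintro x y (h | h | h)
    · exact Or.inl ⟨H.e1.symm h.1, h.2.symm⟩
    · exact Or.inr (Or.inr h)
    · exact Or.inr (Or.inl h)
  · rintro x y z (h | h | h) (h' | h' | h')
    · exact Or.inl ⟨H.e1.trans h.1 h'.1, h.2.trans h'.2⟩
    · exact Or.inr (Or.inl (lnk_left H (H.e1.symm h.1) h.2.symm h'))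
    · exact Or.inr (Or.inr (lnk_right H (H.e1.symm h.1) h.2.symm h'))
    · exact Or.inr (Or.inl (lnk_right H h'.1 h'.2 h))
    · exact (opp_absurd (lnk_role H h) (lnk_role H h')).elim
    · obtain ⟨s, t, h1, h2, h3, h4, h5, h6⟩ := h
      obtain ⟨s', t', h1', h2', h3', h4', h5', h6'⟩ := h'
      obtain ⟨k1, k2⟩ := link2 H h1 h2 h1' h2' (H.e1.trans h5 (H.e1.symm h5')) (h6.trans h6'.symm)
      exact Or.inl ⟨H.e1.trans (H.e1.symm h3) (H.e1.trans k1 h3'), h4.symm.trans (k2.trans h4')⟩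
    · exact Or.inr (Or.inr (lnk_left H h'.1 h'.2 h))
    · obtain ⟨s, t, h1, h2, h3, h4, h5, h6⟩ := h
      obtain ⟨s', t', h1', h2', h3', h4', h5', h6'⟩ := h'
      obtain ⟨k1, k2⟩ := link1 H h1 h2 h1' h2' (H.e1.trans h3 (H.e1.symm h3')) (h4.trans h4'.symm)
      exact Or.inl ⟨H.e1.trans (H.e1.symm h5) (H.e1.trans k1 h5'), h6.symm.trans (k2.trans h6')⟩
    · exact (opp_absurd (lnk_role H h') (lnk_role H h)).elim

lemma lnk_nb {x y : M} (h : Lnk E S c x y) : Nb W (c x).c (c y).c := by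
  obtain ⟨s, t, h1, h2, h3, h4, h5, h6⟩ := h
  have nb := ((H.sc _ _ h2).1 h1).2.2.1
  have s1 := H.same _ _ h3
  have s2 := H.same _ _ h5
  unfold Nb at nb ⊢
  rw [← h4, ← h6, ← s1.1, ← s1.2.1, ← s1.2.2.1, ← s1.2.2.2.1, ← s1.2.2.2.2, ← s2.1, ← s2.2.1, ← s2.2.2.1,
    ← s2.2.2.2.1, ← s2.2.2.2.2]
  exact nb

theorem teAx_of_leAx [Finite M] : TEAx W E (E2' E S c) F (fun x y => S x y ∧ So (c x)) Q (fun x => (c x).c) where
  e1 := H.e1
  e2 := e2'_equiv H
  one := H.one
  same := H.same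
  cell := by
    intro x y hr
    constructor
    · exact fun h => Or.inl ⟨h, hr⟩
    · rintro (h | h | h)
      · exact h.1
      · exact absurd hr (opp_ne (lnk_role H h))
      · exact absurd hr.symm (opp_ne (lnk_role H h))
  nb := by
    rintro x y (h | h | h)
    · refine ⟨fun h1 h2 => ?_, fun h1 h2 => ?_⟩ <;> rw [← h.2, h1] at h2 <;> exact absurd h2 (by decide)
    · exact lnk_nb H h
    · have := lnk_role H h
      refine ⟨fun h1 h2 => ?_, fun h1 h2 => ?_⟩ <;> rcases this with h3 | h3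
      · rw [h3.1] at h2; exact absurd h2 (by decide)
      · rw [h3.1] at h2; exact absurd h2 (by decide)
      · rw [h3.1] at h2; exact absurd h2 (by decide)
      · rw [h3.1] at h2; exact absurd h2 (by decide)
  head := H.head
  fF := H.fF
  F1 := H.F1
  gG := by
    rintro x y ⟨h1, h2⟩
    exact ⟨Or.inr (Or.inl ⟨x, y, h2, h1, H.e1.refl x, rfl, H.e1.refl y, rfl⟩), ((H.sc _ _ h1).1 h2).2.1⟩
  G1 := by
    intro x hx
    have he : (c x).e1 = false := by
      by_contra hc
      exact ((H.fl x).2 (by simpa using hc)).1 hx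
    obtain ⟨y, hy, hy'⟩ := H.s1 x he
    exact ⟨y, ⟨hy, hx⟩, fun z hz => hy' z hz.1⟩
  G2 := by
    intro y hy hk
    have he : (c y).f1 = false := by
      by_contra hc
      exact ((H.fl y).1 (by simpa using hc)).1 ⟨hy, hk⟩
    obtain ⟨x, hx, hx'⟩ := H.s2 y he
    exact ⟨x, ⟨hx, (H.sc x y hx).2.2.2.1 ⟨hy, hk⟩⟩, fun z hz => hx' z hz.1⟩
  H2 := by
    intro y hy hk
    obtain ⟨z, ⟨z1, z2, z3, z4⟩, -⟩ := H.hd y (Or.inr hy)
    have hzi := in_congr H z1 z2.symm hy
    have hzt : Ta (c z) := by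
      rcases z3 with z3 | z3
      · exfalso
        rcases z3 with z3 | z3 <;> rcases hzi with h5 | h5 <;> rw [z3.1] at h5 <;> exact absurd h5.1 (by decide)
      · exact z3
    have he : (c z).f1 = false := by
      by_contra hc
      exact ((H.fl z).1 (by simpa using hc)).1 hzt
    obtain ⟨s, hs, -⟩ := H.s2 z he
    have hso := (H.sc s z hs).2.2.2.1 hzt
    obtain ⟨x, ⟨x1, x2, x3⟩, -⟩ := H.head s (c s).c.role
    have hl : Lnk E S c x y := ⟨s, z, hso, hs, x1, x2.symm, H.e1.symm z1, z2⟩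
    refine ⟨x, ⟨Or.inr (Or.inl hl), x3, lnk_role H hl⟩, ?_⟩
    rintro x' ⟨a1, a2, a3⟩
    have hr : (c x').c.role = (c x).c.role := by
      rcases a3 with a3 | a3 <;> rcases lnk_role H hl with a4 | a4
      · rw [a3.1, a4.1]
      · rw [a3.2] at a4; exact absurd a4.2 (by decide)
      · rw [a3.2] at a4; exact absurd a4.2 (by decide)
      · rw [a3.1, a4.1]
    have he2 : E2' E S c x' x := (e2'_equiv H).trans a1 ((e2'_equiv H).symm (Or.inr (Or.inl hl)))
    have he1 : E x' x := by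
      rcases he2 with h | h | h
      · exact h.1
      · exact absurd hr (opp_ne (lnk_role H h))
      · exact absurd hr.symm (opp_ne (lnk_role H h))
    obtain ⟨w, -, hw⟩ := H.head x (c x).c.role
    rw [hw x' ⟨H.e1.symm he1, hr, a2⟩, hw x ⟨H.e1.refl x, rfl, x3⟩]
  org := H.org
  qQ := H.qQ
  Q1 := H.Q1
  Q2 := H.Q2

end

end Pool.Agent.Helper80.LE
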